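import Pool.Agent.H149R3.GK.Stmts

/-!
# Task CYC: the components of a 2-regular graph are circuits
-/

set_option autoImplicit false

namespace Pool.Agent.H610R3.GK

open Pool.Agent.H149R3.GK

theorem taskCyc : TaskCyc := by
  intro V _ _ F _ hd K
  induction K using SimpleGraph.ConnectedComponent.ind with
  | _ v =>
    have hcyc : F.IsCycles := by
      intro w _
      rw [Set.ncard_eq_toFinset_card']
      exact (F.card_neighborFinset_eq_degree w).trans (hd w)
    have hn : (F.neighborSet v).Nonempty := by
      have h1 : 0 < F.degree v := by rw [hd]; norm_num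
      exact (F.degree_pos_iff_exists_adj v).1 h1
    obtain ⟨p, hp, hv⟩ := hcyc.exists_cycle_toSubgraph_verts_eq_connectedComponentSupp
      (v := v) (c := F.connectedComponentMk v) (by simp) hn
    refine ⟨p.length, p.getVert, hp.three_le_length, by simp, ?_, ?_, ?_⟩
    · intro i hi j hj hij
      refine hp.getVert_injOn' ?_ ?_ hij
      · simp only [Set.mem_ofPred_eq]; omega
      · simp only [Set.mem_ofPred_eq]; omega
    · intro i hi
      exact p.adj_getVert_succ hi
    · intro w
      have h1 : F.connectedComponentMk w = F.connectedComponentMk v ↔ w ∈ p.support := by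
        rw [← SimpleGraph.ConnectedComponent.mem_supp_iff, ← hv,
          SimpleGraph.Walk.mem_verts_toSubgraph]
      rw [h1, SimpleGraph.Walk.mem_support_iff_exists_getVert]
      constructor
      · rintro ⟨n, hn1, hn2⟩
        rcases Nat.lt_or_ge n p.length with h | h
        · exact ⟨n, h, hn1⟩
        · refine ⟨0, by have := hp.three_le_length; omega, ?_⟩
          have h2 : n = p.length := le_antisymm hn2 h
          rw [← hn1, h2]
          simp
      · rintro ⟨n, hn1, hn2⟩
        exact ⟨n, hn2, hn1.le⟩

end Pool.Agent.H610R3.GK
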